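import Pool.Agent.Q202.AcAh.Defs
import Pool.Agent.Q202.AcAh.Example

/-!
# Automatic continuity without automatic homeomorphicity inside the class of closed
transformation monoids

The witness is the monoid `(ℕ ∪ {∞}, +)` acting on itself by translations, a discrete closed
submonoid of `Ω^Ω`.  The same monoid acts on `ℕ` by truncated subtraction `c ↦ c - d`, which gives
an isomorphic closed submonoid of `Ω^Ω` that is not discrete.
-/

namespace Pool.Agent.Results.MP_fafee5_lc.ContinuityNotHomeo

open Topology Q202.AcAh

/-- **Theorem (positive answer to Q1).** For every countably infinite `Ω` there is a closed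
submonoid `S` of `Ω^Ω` that has automatic continuity but not automatic homeomorphicity with respect
to the class of closed submonoids of `Ω^Ω`. -/
theorem result (Ω : Type*) [Countable Ω] [Infinite Ω] :
    ∃ S : Submonoid (Function.End Ω),
      IsClosedMonoid S ∧ AutomaticContinuity S ∧ ¬ AutomaticHomeomorphicity S := by
  classical
  have hinf : Infinite ℕ∞ := Infinite.of_injective (fun n : ℕ => (n : ℕ∞)) Nat.cast_injective
  obtain ⟨e⟩ : Nonempty (Ω ≃ ℕ∞) := nonempty_equiv_of_countable
  obtain ⟨e'⟩ : Nonempty (Ω ≃ ℕ) := nonempty_equiv_of_countable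
  have hdisc : @DiscreteTopology (MonoidHom.mrange (transl e))
      (subTop (MonoidHom.mrange (transl e))) := by
    let _ : TopologicalSpace (MonoidHom.mrange (transl e)) := subTop _
    rw [discreteTopology_iff_singleton_mem_nhds]
    exact transl_discrete e
  refine ⟨MonoidHom.mrange (transl e), transl_closed e, ?_, ?_⟩
  · intro T _ φ
    let _ : TopologicalSpace (MonoidHom.mrange (transl e)) := subTop _
    let _ : TopologicalSpace T := subTop _
    exact continuous_of_discreteTopology
  · intro h
    let φ1 : Multiplicative ℕ∞ ≃* MonoidHom.mrange (transl e) :=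
      MulEquiv.ofBijective (transl e).mrangeRestrict
        ⟨fun a b hab => transl_injective e (congrArg Subtype.val hab),
          (transl e).mrangeRestrict_surjective⟩
    let φ2 : Multiplicative ℕ∞ ≃* MonoidHom.mrange (trunc e') :=
      MulEquiv.ofBijective (trunc e').mrangeRestrict
        ⟨fun a b hab => trunc_injective e' (congrArg Subtype.val hab),
          (trunc e').mrangeRestrict_surjective⟩
    have h1 := h _ (trunc_closed e') (φ1.symm.trans φ2)
    let _ : TopologicalSpace (MonoidHom.mrange (transl e)) := subTop _
    let _ : TopologicalSpace (MonoidHom.mrange (trunc e')) := subTop _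
    apply trunc_not_discrete e'
    have h2 : IsOpenMap (φ1.symm.trans φ2) := h1.isOpenMap
    set t : MonoidHom.mrange (trunc e') := ⟨trunc e' (Multiplicative.ofAdd ⊤), ⟨_, rfl⟩⟩ with ht
    have h3 := h2 {(φ1.symm.trans φ2).symm t} (isOpen_discrete _)
    rw [Set.image_singleton, MulEquiv.apply_symm_apply] at h3
    exact h3.mem_nhds (Set.mem_singleton _)

end Pool.Agent.Results.MP_fafee5_lc.ContinuityNotHomeo
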