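import Pool.Agent.Q202.AcAh.Defs
import Pool.Agent.Q202.AcAh.Lemmas
import Pool.Agent.Q202.MinTop

/-!
# Oligomorphic closed transformation monoids: automatic continuity implies automatic
homeomorphicity
-/

namespace Pool.Agent.Results.MP_fafee5_lc.OligomorphicNoExample

open Topology Q202.AcAh

/-- **Theorem (negative answer to Q2).** If an oligomorphic closed submonoid `S` of `Ω^Ω`
(`Ω` countably infinite) has automatic continuity with respect to the class of closed submonoids
of `Ω^Ω`, then it has automatic homeomorphicity with respect to this class. -/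
theorem result (Ω : Type*) [Countable Ω] [Infinite Ω] (S : Submonoid (Function.End Ω))
    (hS : IsClosedMonoid S) (hol : Oligomorphic S) (hac : AutomaticContinuity S) :
    AutomaticHomeomorphicity S := by
  classical
  intro T hT φ
  have hφ : @Continuous S T (subTop S) (subTop T) φ := hac T hT φ.toMulHom
  -- the group of invertible elements, as permutations
  let perm : Sˣ →* Equiv.Perm Ω := MulAction.toPermHom Sˣ Ω
  let G : Subgroup (Equiv.Perm Ω) := perm.range
  have hperm : ∀ (u : Sˣ) (a : Ω), perm u a = ((u : S) : Function.End Ω) a := fun u a => rfl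
  have hG : Q202.MinTop.Oligo G := by
    intro n
    rcases Nat.eq_zero_or_pos n with rfl | hn
    · refine ⟨Set.univ, Set.finite_univ_iff.2 inferInstance, fun y => ⟨y, trivial, 1, G.one_mem, ?_⟩⟩
      intro i
      exact i.elim0
    · have hfin := hol n hn
      let r : MulAction.orbitRel.Quotient Sˣ (Fin n → Ω) → (Fin n → Ω) := Quotient.out
      refine ⟨Set.range r, Set.finite_range r, fun y => ?_⟩
      refine ⟨r (Quotient.mk _ y), ⟨_, rfl⟩, ?_⟩
      have h1 : (MulAction.orbitRel Sˣ (Fin n → Ω)) (r (Quotient.mk _ y)) y := Quotient.mk_out y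
      rw [MulAction.orbitRel_apply] at h1
      obtain ⟨u, hu⟩ := h1
      refine ⟨perm u⁻¹, ⟨u⁻¹, rfl⟩, fun i => ?_⟩
      have h2 : r (Quotient.mk _ y) i = perm u (y i) := by
        rw [← hu]; rfl
      rw [h2, map_inv]
      exact (perm u).symm_apply_apply _
  let _ : TopologicalSpace (Function.End Ω) := pointwise Ω
  have hT2End : T2Space (Function.End Ω) := t2_pointwise
  have hmulEnd : Continuous fun p : Function.End Ω × Function.End Ω => p.1 * p.2 :=
    continuous_comp_pointwise
  -- pull back the topology of `T`
  let τ : TopologicalSpace S := TopologicalSpace.induced (fun s => ((φ s : T) : Function.End Ω))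
    (pointwise Ω)
  have hτ2 : @T2Space S τ := by
    refine @T2Space.mk S τ (fun x y hxy => ?_)
    have hne : ((φ x : T) : Function.End Ω) ≠ ((φ y : T) : Function.End Ω) := fun h =>
      hxy (φ.injective (Subtype.ext h))
    obtain ⟨U, V, hU, hV, hxU, hyV, hUV⟩ := t2_separation hne
    exact ⟨_, _, isOpen_induced hU, isOpen_induced hV, hxU, hyV, hUV.preimage _⟩
  have key := Q202.MinTop.core hG (fun (s : S) (a : Ω) => (s : Function.End Ω) a) ?_
    (fun s t => s * t) (fun s t a => rfl) ?_ τ hτ2 ?_ ?_
  · -- conclusion
    have hSτ : subTop S = τ := key.symm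
    let _ : TopologicalSpace S := subTop S
    let _ : TopologicalSpace T := subTop T
    have hind : IsInducing (φ : S → T) := by
      constructor
      change subTop S = TopologicalSpace.induced φ (TopologicalSpace.induced _ (pointwise Ω))
      rw [induced_compose]
      exact hSτ
    exact isHomeomorph_iff_isEmbedding_surjective.2 ⟨⟨hind, φ.injective⟩, φ.surjective⟩
  · -- closedness
    intro f hf
    have h1 : (f : Function.End Ω) ∈ S := (isClosedMonoid_iff S).1 hS f hf
    exact ⟨⟨f, h1⟩, rfl⟩
  · rintro g ⟨u, rfl⟩
    exact ⟨(u : S), rfl⟩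
  · -- continuity of multiplication
    let _ : TopologicalSpace S := τ
    rw [continuous_induced_rng]
    have h0 : Continuous fun s : S => ((φ s : T) : Function.End Ω) := continuous_induced_dom
    have h1 : Continuous fun p : S × S =>
        (((φ p.1 : T) : Function.End Ω), ((φ p.2 : T) : Function.End Ω)) :=
      (h0.comp continuous_fst).prodMk (h0.comp continuous_snd)
    have h2 := hmulEnd.comp h1
    convert h2 using 1
    funext p
    simp only [Function.comp]
    rw [map_mul]
    rfl
  · -- coarser
    have h1 := continuous_iff_le_induced.1 hφ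
    refine le_trans (le_of_eq ?_) (le_trans h1 (le_of_eq ?_))
    · rfl
    · rw [induced_compose]
      rfl

end Pool.Agent.Results.MP_fafee5_lc.OligomorphicNoExample
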